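import Pool.Agent.Helper38.VF.Goals2

/-! Packet VTF-FOX: the values of a derivation as functions of the values at the generators. -/

set_option autoImplicit false

namespace Pool.Agent.Helper61.VF

open Pool.Agent.Helper27.VF Pool.Agent.Helper38.VF

universe u

variable {A : Type u} [Group A]

theorem norm_left [DistribMulAction A (L2 A)] (hL : LeftAct A) (g : A) (f : L2 A) :
    ‖g • f‖ = ‖f‖ := by
  have hp : 0 < (2 : ENNReal).toReal := by norm_num
  have h1 : ∑' i, ‖(g • f) i‖ ^ (2 : ENNReal).toReal = ∑' i, ‖f i‖ ^ (2 : ENNReal).toReal := by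
    rw [← (Equiv.mulLeft g⁻¹).tsum_eq (fun i => ‖f i‖ ^ (2 : ENNReal).toReal)]
    refine tsum_congr fun b => ?_
    rw [hL]
    rfl
  rw [lp.norm_eq_tsum_rpow hp, lp.norm_eq_tsum_rpow hp, h1]

/-- The left translation. -/
noncomputable def Lt [DistribMulAction A (L2 A)] (hL : LeftAct A) (g : A) : L2 A →L[ℝ] L2 A :=
  LinearMap.mkContinuous
    { toFun := fun f => g • f
      map_add' := fun f f' => smul_add g f f'
      map_smul' := fun r f => by
        refine lp.ext (funext fun b => ?_)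
        rw [hL, RingHom.id_apply, lp.coeFn_smul, lp.coeFn_smul, Pi.smul_apply, Pi.smul_apply, hL] }
    1 (fun f => by
      rw [one_mul]
      exact (norm_left hL g f).le)

theorem Lt_apply [DistribMulAction A (L2 A)] (hL : LeftAct A) (g : A) (f : L2 A) :
    Lt hL g f = g • f := rfl

theorem der_one {M : Type*} [AddCommGroup M] [DistribMulAction A M] {δ : A → M}
    (hδ : IsDer δ) : δ 1 = 0 := by
  have h := hδ 1 1
  rw [one_mul, one_smul] at h
  exact left_eq_add.1 h

theorem der_inv {M : Type*} [AddCommGroup M] [DistribMulAction A M] {δ : A → M}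
    (hδ : IsDer δ) (x : A) : δ x⁻¹ = - (x⁻¹ • δ x) := by
  have h := hδ x⁻¹ x
  rw [inv_mul_cancel, der_one hδ] at h
  exact eq_neg_of_add_eq_zero_left h.symm

/-- The operator for one element. -/
theorem one_elt (hK : KurStmt.{u}) [DistribMulAction A (L2 A)] (hL : LeftAct A) (n : ℕ)
    (a : Fin n → A) (x : A) (hx : x ∈ Subgroup.closure (Set.range a)) :
    ∃ c : L2 (Fin n × A) →L[ℝ] L2 A,
      (∀ (h : A) (f f' : L2 (Fin n × A)), (∀ z, f' z = f (z.1, z.2 * h)) →
        ∀ b : A, c f' b = c f (b * h)) ∧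
      ∀ δ : A → L2 A, IsDer δ → ∀ e : L2 (Fin n × A), (∀ i b, e (i, b) = δ (a i) b) →
        c e = δ x := by
  induction hx using Subgroup.closure_induction with
  | mem x hx =>
    obtain ⟨i, rfl⟩ := hx
    obtain ⟨T, hT⟩ := hK A n
    have key : ∀ (f : L2 (Fin n × A)) (b : A), (T.symm f) i b = f (i, b) := by
      intro f b
      rw [← hT, T.apply_symm_apply]
    refine ⟨(ContinuousLinearMap.proj i).comp (T.symm : L2 (Fin n × A) →L[ℝ] (Fin n → L2 A)),
      ?_, ?_⟩
    · intro h f f' hf b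
      show (T.symm f') i b = (T.symm f) i (b * h)
      rw [key, key, hf]
    · intro δ _ e he
      refine lp.ext (funext fun b => ?_)
      show (T.symm e) i b = δ (a i) b
      rw [key, he]
  | one =>
    refine ⟨0, fun h f f' _ b => rfl, fun δ hδ e _ => ?_⟩
    rw [der_one hδ]
    rfl
  | mul x y _ _ hx hy =>
    obtain ⟨c, hc1, hc2⟩ := hx
    obtain ⟨c', hc1', hc2'⟩ := hy
    refine ⟨c + (Lt hL x).comp c', ?_, ?_⟩
    · intro h f f' hf b
      show (c f' + x • c' f') b = (c f + x • c' f) (b * h)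
      rw [lp.coeFn_add, lp.coeFn_add, Pi.add_apply, Pi.add_apply, hL, hL, hc1 h f f' hf,
        hc1' h f f' hf, mul_assoc]
    · intro δ hδ e he
      show c e + x • c' e = δ (x * y)
      rw [hc2 δ hδ e he, hc2' δ hδ e he, hδ]
  | inv x _ hx =>
    obtain ⟨c, hc1, hc2⟩ := hx
    refine ⟨-((Lt hL x⁻¹).comp c), ?_, ?_⟩
    · intro h f f' hf b
      show (-(x⁻¹ • c f')) b = (-(x⁻¹ • c f)) (b * h)
      rw [lp.coeFn_neg, lp.coeFn_neg, Pi.neg_apply, Pi.neg_apply, hL, hL, hc1 h f f' hf, mul_assoc]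
    · intro δ hδ e he
      show -(x⁻¹ • c e) = δ x⁻¹
      rw [hc2 δ hδ e he, der_inv hδ]

theorem fox (hK : KurStmt.{u}) : FoxStmt.{u} := by
  intro A _ _ hL n k a x hgen
  have h1 : ∀ i : Fin k, ∃ c : L2 (Fin n × A) →L[ℝ] L2 A,
      (∀ (h : A) (f f' : L2 (Fin n × A)), (∀ z, f' z = f (z.1, z.2 * h)) →
        ∀ b : A, c f' b = c f (b * h)) ∧
      ∀ δ : A → L2 A, IsDer δ → ∀ e : L2 (Fin n × A), (∀ i b, e (i, b) = δ (a i) b) →
        c e = δ (x i) := fun i => one_elt hK hL n a (x i) (by rw [hgen]; exact Subgroup.mem_top _)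
  choose c hc1 hc2 using h1
  obtain ⟨T, hT⟩ := hK A k
  refine ⟨(T : (Fin k → L2 A) →L[ℝ] L2 (Fin k × A)).comp (ContinuousLinearMap.pi c), ?_, ?_⟩
  · intro h f f' hf z
    show (T fun i => c i f') z = (T fun i => c i f) (z.1, z.2 * h)
    obtain ⟨i, b⟩ := z
    rw [hT, hT]
    exact hc1 i h f f' hf b
  · intro δ hδ e he i b
    show (T fun i => c i e) (i, b) = δ (x i) b
    rw [hT]
    show (c i e) b = _
    rw [hc2 i δ hδ e he]

end Pool.Agent.Helper61.VF
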