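import Pool.Agent.Helper38.VF.Goals2

/-! Packet VTF-TR2: approximation in Hilbert spaces. -/

set_option autoImplicit false

namespace Pool.Agent.Helper61.VF

open Pool.Agent.Helper27.VF Pool.Agent.Helper38.VF

universe u

theorem reg {H₁ H₂ : Type u} [NormedAddCommGroup H₁] [InnerProductSpace ℝ H₁]
    [CompleteSpace H₁] [NormedAddCommGroup H₂] [InnerProductSpace ℝ H₂] [CompleteSpace H₂]
    (C : H₁ →L[ℝ] H₂) (ε : ℝ) (hε : 0 < ε) :
    ∃ S : H₂ →L[ℝ] H₂, (∀ y, C (C.adjoint (S y)) + ε • S y = y) ∧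
      ∀ y, S (C (C.adjoint y) + ε • y) = y := by
  obtain ⟨T, hT⟩ : ∃ T : H₂ →L[ℝ] H₂, T = C.comp C.adjoint + ε • ContinuousLinearMap.id ℝ H₂ :=
    ⟨_, rfl⟩
  have hTa : ∀ y, T y = C (C.adjoint y) + ε • y := by
    intro y
    rw [hT]
    rfl
  have hu : IsUnit T := by
    apply ContinuousLinearMap.isUnit_of_forall_le_norm_inner_map T (c := ⟨ε, hε.le⟩) hε
    intro x
    have h1 : inner ℝ (T x) x = ‖C.adjoint x‖ ^ 2 + ε * ‖x‖ ^ 2 := by
      rw [hTa, inner_add_left, inner_smul_left, real_inner_self_eq_norm_sq,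
        ← ContinuousLinearMap.adjoint_inner_right, real_inner_self_eq_norm_sq]
      rfl
    rw [h1]
    have h2 : 0 ≤ ‖C.adjoint x‖ ^ 2 + ε * ‖x‖ ^ 2 := by positivity
    rw [Real.norm_of_nonneg h2]
    have h3 : 0 ≤ ‖C.adjoint x‖ ^ 2 := by positivity
    show ‖x‖ ^ 2 * ε ≤ _
    linarith
  obtain ⟨V, hV⟩ := hu
  refine ⟨(V⁻¹ : (H₂ →L[ℝ] H₂)ˣ), ?_, ?_⟩
  · intro y
    rw [← hTa, ← hV]
    have h := V.mul_inv
    exact DFunLike.congr_fun h y
  · intro y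
    rw [← hTa, ← hV]
    have h := V.inv_mul
    exact DFunLike.congr_fun h y

theorem tr2 : Tr2Stmt.{u} := by
  intro H₁ H₂ _ _ _ _ _ _ C hC k v η hη
  have hx : ∀ j, ∃ x : H₁, ‖v j - C x‖ ≤ η / (2 * (‖v j‖ + 1)) := by
    intro j
    have hpos : 0 < η / (2 * (‖v j‖ + 1)) := by positivity
    obtain ⟨x, hx⟩ := hC.exists_dist_lt (v j) hpos
    exact ⟨x, by rw [← dist_eq_norm]; exact hx.le⟩
  choose x hx using hx
  obtain ⟨D, hD⟩ : ∃ D : ℝ, D = ∑ j, ‖x j‖ * ‖v j‖ := ⟨_, rfl⟩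
  have hD0 : 0 ≤ D := by rw [hD]; exact Finset.sum_nonneg fun j _ => by positivity
  have hDj : ∀ j, ‖x j‖ * ‖v j‖ ≤ D := by
    intro j
    rw [hD]
    exact Finset.single_le_sum (f := fun j => ‖x j‖ * ‖v j‖) (fun j _ => by positivity)
      (Finset.mem_univ j)
  obtain ⟨r, hr⟩ : ∃ r : ℝ, r = η / (2 * (D + 1)) := ⟨_, rfl⟩
  have hr0 : 0 < r := by rw [hr]; positivity
  have hε : 0 < r ^ 2 := by positivity
  obtain ⟨S, hS1, hS2⟩ := reg C (r ^ 2) hε
  -- the basic identity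
  have hid : ∀ y z : H₂, C (C.adjoint y) + r ^ 2 • y = z →
      ‖C.adjoint y‖ ^ 2 + r ^ 2 * ‖y‖ ^ 2 = inner ℝ z y := by
    intro y z h
    rw [← h, inner_add_left, inner_smul_left, real_inner_self_eq_norm_sq,
      ← ContinuousLinearMap.adjoint_inner_right, real_inner_self_eq_norm_sq]
    rfl
  have hCx : ∀ x : H₁, ‖C.adjoint (S (C x))‖ ≤ ‖x‖ ∧ r ^ 2 * ‖S (C x)‖ ^ 2 ≤ ‖x‖ ^ 2 := by
    intro x
    have h1 := hid (S (C x)) (C x) (hS1 (C x))
    have h2 : inner ℝ (C x) (S (C x)) ≤ ‖x‖ * ‖C.adjoint (S (C x))‖ := by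
      rw [← ContinuousLinearMap.adjoint_inner_right]
      exact real_inner_le_norm _ _
    have h3 : 0 ≤ r ^ 2 * ‖S (C x)‖ ^ 2 := by positivity
    have h4 : ‖C.adjoint (S (C x))‖ ^ 2 ≤ ‖x‖ * ‖C.adjoint (S (C x))‖ := by linarith
    have h5 : ‖C.adjoint (S (C x))‖ ≤ ‖x‖ := by
      rcases (norm_nonneg (C.adjoint (S (C x)))).eq_or_lt with h | h
      · rw [← h]
        exact norm_nonneg x
      · rw [sq] at h4
        exact le_of_mul_le_mul_right h4 h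
    refine ⟨h5, ?_⟩
    have h6 : 0 ≤ ‖C.adjoint (S (C x))‖ ^ 2 := by positivity
    have h7 : ‖x‖ * ‖C.adjoint (S (C x))‖ ≤ ‖x‖ * ‖x‖ :=
      mul_le_mul_of_nonneg_left h5 (norm_nonneg x)
    nlinarith
  have hz : ∀ z : H₂, r ^ 2 * ‖S z‖ ≤ ‖z‖ := by
    intro z
    have h1 := hid (S z) z (hS1 z)
    have h2 : inner ℝ z (S z) ≤ ‖z‖ * ‖S z‖ := real_inner_le_norm _ _
    have h3 : 0 ≤ ‖C.adjoint (S z)‖ ^ 2 := by positivity
    have h4 : r ^ 2 * ‖S z‖ * ‖S z‖ ≤ ‖z‖ * ‖S z‖ := by nlinarith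
    rcases (norm_nonneg (S z)).eq_or_lt with h | h
    · rw [← h, mul_zero]
      exact norm_nonneg z
    · exact le_of_mul_le_mul_right h4 h
  refine ⟨S, ?_, ?_, ?_⟩
  · intro x
    have h1 := (hCx x).1
    calc inner ℝ (C.adjoint (S (C x))) x ≤ ‖C.adjoint (S (C x))‖ * ‖x‖ := real_inner_le_norm _ _
      _ ≤ ‖x‖ * ‖x‖ := mul_le_mul_of_nonneg_right h1 (norm_nonneg x)
      _ = ‖x‖ ^ 2 := (sq _).symm
  · intro j
    have h1 : S (C (C.adjoint (v j))) = v j - r ^ 2 • S (v j) := by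
      have h := hS2 (v j)
      rw [map_add, map_smul] at h
      exact eq_sub_of_add_eq h
    rw [h1, inner_sub_left, real_inner_self_eq_norm_sq]
    have h2 : inner ℝ (r ^ 2 • S (v j)) (v j) ≤ ‖r ^ 2 • S (v j)‖ * ‖v j‖ :=
      real_inner_le_norm _ _
    have h3 : ‖r ^ 2 • S (v j)‖ ≤ η / (2 * (‖v j‖ + 1)) + r * ‖x j‖ := by
      have h4 : r ^ 2 • S (v j) = r ^ 2 • S (v j - C (x j)) + r ^ 2 • S (C (x j)) := by
        rw [← smul_add, ← map_add, sub_add_cancel]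
      rw [h4]
      refine le_trans (norm_add_le _ _) (add_le_add ?_ ?_)
      · rw [norm_smul, Real.norm_of_nonneg hε.le]
        exact le_trans (hz _) (hx j)
      · rw [norm_smul, Real.norm_of_nonneg hε.le]
        have h5 := (hCx (x j)).2
        have h6 : (r * ‖S (C (x j))‖) ^ 2 ≤ ‖x j‖ ^ 2 := by
          rw [mul_pow]
          exact h5
        have h7 : r * ‖S (C (x j))‖ ≤ ‖x j‖ :=
          (pow_le_pow_iff_left₀ (by positivity) (by positivity) (by norm_num)).1 h6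
        calc r ^ 2 * ‖S (C (x j))‖ = r * (r * ‖S (C (x j))‖) := by ring
          _ ≤ r * ‖x j‖ := mul_le_mul_of_nonneg_left h7 hr0.le
    have h8 : ‖r ^ 2 • S (v j)‖ * ‖v j‖ ≤ η := by
      have h9 : ‖r ^ 2 • S (v j)‖ * ‖v j‖ ≤
          (η / (2 * (‖v j‖ + 1)) + r * ‖x j‖) * ‖v j‖ :=
        mul_le_mul_of_nonneg_right h3 (norm_nonneg _)
      have h10 : η / (2 * (‖v j‖ + 1)) * ‖v j‖ ≤ η / 2 := by
        rw [div_mul_eq_mul_div, div_le_div_iff₀ (by positivity) (by norm_num)]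
        nlinarith [norm_nonneg (v j)]
      have h11 : r * ‖x j‖ * ‖v j‖ ≤ η / 2 := by
        have h12 : r * (‖x j‖ * ‖v j‖) ≤ r * D := mul_le_mul_of_nonneg_left (hDj j) hr0.le
        have h13 : r * D ≤ η / 2 := by
          rw [hr, div_mul_eq_mul_div, div_le_div_iff₀ (by positivity) (by norm_num)]
          nlinarith
        rw [mul_assoc]
        linarith
      rw [add_mul] at h9
      linarith
    linarith
  · intro U₁ U₂ hU
    have hadj : ∀ y, C.adjoint (U₂ y) = U₁ (C.adjoint y) := by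
      intro y
      refine ext_inner_right ℝ fun z => ?_
      obtain ⟨z', rfl⟩ := U₁.surjective z
      rw [ContinuousLinearMap.adjoint_inner_left, hU, LinearIsometryEquiv.inner_map_map,
        LinearIsometryEquiv.inner_map_map, ContinuousLinearMap.adjoint_inner_left]
    refine ⟨?_, hadj⟩
    intro y
    have h1 : C (C.adjoint (U₂ (S y))) + r ^ 2 • U₂ (S y) = U₂ y := by
      rw [hadj, hU, ← map_smul, ← map_add, hS1]
    rw [← h1, hS2]

end Pool.Agent.Helper61.VF
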